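import Mathlib

set_option autoImplicit false

namespace Pool.Agent.Results.MP_2d7e0f_pr.Attained

open MeasureTheory Set Filter Topology unitInterval
open scoped ENNReal

noncomputable section

/-- The `C`-volume of the box `[u, v]`; `R` is the set of coordinates taken from `u`. -/
def vol {n : ℕ} (C : (Fin n → I) → ℝ) (u v : Fin n → I) : ℝ :=
  ∑ R : Finset (Fin n), (-1) ^ R.card * C (R.piecewise u v)

/-- `n`-copulas. -/
structure IsCopula {n : ℕ} (C : (Fin n → I) → ℝ) : Prop where
  mem : ∀ x, C x ∈ Icc (0 : ℝ) 1
  grounded : ∀ x k, x k = 0 → C x = 0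
  margin : ∀ x k, (∀ j, j ≠ k → x j = 1) → C x = x k
  increasing : ∀ u v, u ≤ v → 0 ≤ vol C u v

/-- The lower Frechet bound. -/
def W {n : ℕ} (x : Fin n → I) : ℝ := max (∑ k, (x k : ℝ) - n + 1) 0

/-- The supremum `s_n`. -/
def s (n : ℕ) : ℝ≥0∞ :=
  ⨆ (A : Set (Fin n → I)) (_ : MeasurableSet A)
    (_ : ∃ C, IsCopula C ∧ ∀ x ∈ A, C x = W x), volume A

variable {n : ℕ} {C : (Fin n → I) → ℝ}

lemma vol_eq (h : IsCopula C) (T : Finset (Fin n)) (u v : Fin n → I) (hu : ∀ i, i ∉ T → u i = 0) :
    vol C u v = ∑ R ∈ T.powerset, (-1) ^ R.card * C (R.piecewise u v) := by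
  refine (Finset.sum_subset (Finset.subset_univ _) fun R _ hR => ?_).symm
  obtain ⟨i, hi, hT⟩ := Finset.not_subset.1 (Finset.mem_powerset.not.1 hR)
  rw [h.grounded _ i (by rw [Finset.piecewise_eq_of_mem _ _ _ hi, hu i hT]), mul_zero]

lemma mono1 (h : IsCopula C) (x : Fin n → I) (k : Fin n) {a b : I} (hab : a ≤ b) :
    C (Function.update x k a) ≤ C (Function.update x k b) := by
  have h1 := h.increasing (Function.update 0 k a) (Function.update x k b) fun i => by
    by_cases hi : i = k
    · subst hi
      simpa using hab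
    · simp [hi]
  rw [vol_eq h {k} _ _ fun i hi => by simp [Finset.notMem_singleton.1 hi]] at h1
  have : ({k} : Finset (Fin n)).powerset = {∅, {k}} := rfl
  rw [this, Finset.sum_pair (Finset.singleton_ne_empty k).symm] at h1
  simp [Finset.piecewise_singleton] at h1
  linarith

lemma two_inc (h : IsCopula C) (x : Fin n → I) {k j : Fin n} (hjk : j ≠ k) {a b : I} (hab : a ≤ b) :
    C (Function.update x k b) - C (Function.update x k a) ≤
      C (Function.update (Function.update x j 1) k b) -
        C (Function.update (Function.update x j 1) k a) := by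
  have h1 := h.increasing (Function.update (Function.update 0 j (x j)) k a)
    (Function.update (Function.update x j 1) k b) fun i => by
    by_cases hi : i = k
    · subst hi
      simpa using hab
    · by_cases hj : i = j
      · subst hj
        simp [hi, le_one']
      · simp [hi, hj]
  rw [vol_eq h (insert j {k}) _ _ fun i hi => by
    simp only [Finset.mem_insert, Finset.mem_singleton, not_or] at hi
    simp [hi.1, hi.2], Finset.sum_powerset_insert (by simpa using hjk)] at h1
  have : ({k} : Finset (Fin n)).powerset = {∅, {k}} := rfl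
  rw [this, Finset.sum_pair (Finset.singleton_ne_empty k).symm,
    Finset.sum_pair (Finset.singleton_ne_empty k).symm] at h1
  have e1 : (insert j (∅ : Finset (Fin n))).piecewise (Function.update (Function.update 0 j (x j)) k a)
      (Function.update (Function.update x j 1) k b) = Function.update x k b := by
    funext i
    by_cases hi : i = k
    · subst hi
      simp [Finset.piecewise, hjk.symm]
    · by_cases hj : i = j
      · subst hj
        simp [Finset.piecewise, hi]
      · simp [Finset.piecewise, hi, hj]
  have e2 : (insert j ({k} : Finset (Fin n))).piecewise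
      (Function.update (Function.update 0 j (x j)) k a)
      (Function.update (Function.update x j 1) k b) = Function.update x k a := by
    funext i
    by_cases hi : i = k
    · subst hi
      simp [Finset.piecewise]
    · by_cases hj : i = j
      · subst hj
        simp [Finset.piecewise, hi]
      · simp [Finset.piecewise, hi, hj]
  rw [e1, e2, Finset.card_insert_of_notMem (by simp),
    Finset.card_insert_of_notMem (by simpa using hjk)] at h1
  simp [Finset.piecewise_singleton] at h1
  linarith

lemma lip1 (h : IsCopula C) (k : Fin n) {a b : I} (hab : a ≤ b) (x : Fin n → I) :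
    C (Function.update x k b) - C (Function.update x k a) ≤ b - a := by
  have key : ∀ T : Finset (Fin n), ∀ x : Fin n → I, (∀ j, j ∉ T → j ≠ k → x j = 1) →
      C (Function.update x k b) - C (Function.update x k a) ≤ b - a := by
    intro T
    induction T using Finset.induction_on with
    | empty =>
      intro x hx
      rw [h.margin _ k fun j hj => by simp [hj, hx j (by simp) hj],
        h.margin _ k fun j hj => by simp [hj, hx j (by simp) hj]]
      simp
    | insert j T _ ih =>
      intro x hx
      by_cases hjk : j = k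
      · exact ih x fun i hi hik => hx i (by simp [hi, hjk, hik]) hik
      · refine (two_inc h x hjk hab).trans (ih _ fun i hi hik => ?_)
        by_cases hij : i = j
        · simp [hij]
        · simp [hij, hx i (by simp [hi, hij]) hik]
  exact key Finset.univ x fun j hj => absurd (Finset.mem_univ j) hj

lemma lip2 (h : IsCopula C) (k : Fin n) (x : Fin n → I) (b : I) :
    |C (Function.update x k b) - C x| ≤ |(b : ℝ) - x k| := by
  conv_lhs => rw [← Function.update_eq_self k x, Function.update_idem]
  rcases le_total b (x k) with hb | hb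
  · rw [abs_sub_comm, abs_of_nonneg (sub_nonneg.2 (mono1 h x k hb)), abs_sub_comm]
    exact (lip1 h k hb x).trans (le_abs_self _)
  · rw [abs_of_nonneg (sub_nonneg.2 (mono1 h x k hb))]
    exact (lip1 h k hb x).trans (le_abs_self _)

lemma lip (h : IsCopula C) (x y : Fin n → I) : dist (C x) (C y) ≤ n * dist x y := by
  have key : ∀ T : Finset (Fin n), |C (T.piecewise x y) - C y| ≤ T.card * dist x y := by
    intro T
    induction T using Finset.induction_on with
    | empty => simp
    | insert j T hj ih =>
      rw [Finset.piecewise_insert, Finset.card_insert_of_notMem hj]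
      have h1 := lip2 h j (T.piecewise x y) (x j)
      rw [Finset.piecewise_eq_of_notMem _ _ _ hj] at h1
      have h2 : |(x j : ℝ) - y j| ≤ dist x y := dist_le_pi_dist x y j
      have h3 := abs_sub_le (C (Function.update (T.piecewise x y) j (x j))) (C (T.piecewise x y)) (C y)
      push_cast
      linarith
  simpa [Real.dist_eq] using key Finset.univ

lemma cont (h : IsCopula C) : Continuous C :=
  (LipschitzWith.of_dist_le_mul (K := n) (lip h)).continuous

lemma contW : Continuous (W (n := n)) := by
  unfold W
  fun_prop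

lemma prod_copula : IsCopula fun x : Fin n → I => ∏ k, (x k : ℝ) where
  mem x := ⟨Finset.prod_nonneg fun k _ => (x k).2.1,
    Finset.prod_le_one (fun k _ => (x k).2.1) fun k _ => (x k).2.2⟩
  grounded x k hk := Finset.prod_eq_zero (Finset.mem_univ k) (by simp [hk])
  margin x k hk := Finset.prod_eq_single k (fun j _ hj => by simp [hk j hj]) (by simp)
  increasing u v huv := by
    have h1 : vol (fun x : Fin n → I => ∏ k, (x k : ℝ)) u v = ∏ k, (-(u k : ℝ) + v k) := by
      rw [Finset.prod_add, vol, Finset.powerset_univ]
      refine Finset.sum_congr rfl fun R _ => ?_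
      have : ∀ k, ((R.piecewise u v k : I) : ℝ) =
          R.piecewise (fun k => (u k : ℝ)) (fun k => (v k : ℝ)) k := by
        intro k
        by_cases hk : k ∈ R <;> simp [hk]
      simp only [this]
      rw [Finset.prod_piecewise, Finset.univ_inter, Finset.prod_neg, mul_assoc]
    rw [h1]
    exact Finset.prod_nonneg fun k _ => by
      have : (u k : ℝ) ≤ v k := huv k
      linarith

lemma compact : IsCompact {C : C(Fin n → I, ℝ) | IsCopula C} := by
  refine ArzelaAscoli.isCompact_of_equicontinuous _ ?_ ?_
  · have h1 : ContinuousMap.toFun '' {C : C(Fin n → I, ℝ) | IsCopula C} = {C | IsCopula C} := by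
      ext C
      exact ⟨fun ⟨D, hD, e⟩ => e ▸ hD, fun hC => ⟨⟨C, cont hC⟩, hC, rfl⟩⟩
    rw [h1]
    refine (isCompact_univ_pi fun _ => isCompact_Icc (a := (0 : ℝ)) (b := 1)).of_isClosed_subset ?_
      fun C hC x _ => hC.mem x
    have h2 : {C : (Fin n → I) → ℝ | IsCopula C} = (⋂ x, {C | C x ∈ Icc (0 : ℝ) 1}) ∩
        (⋂ x, ⋂ k, ⋂ (_ : x k = 0), {C | C x = 0}) ∩
        (⋂ x, ⋂ k, ⋂ (_ : ∀ j, j ≠ k → x j = 1), {C | C x = x k}) ∩
        (⋂ u, ⋂ v, ⋂ (_ : u ≤ v), {C | 0 ≤ vol C u v}) := by
      ext C
      simp only [mem_inter_iff, mem_iInter, mem_ofPred_eq]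
      exact ⟨fun h => ⟨⟨⟨h.1, h.2⟩, h.3⟩, h.4⟩, fun h => ⟨h.1.1.1, h.1.1.2, h.1.2, h.2⟩⟩
    rw [h2]
    refine (((isClosed_iInter fun x => isClosed_Icc.preimage (continuous_apply x)).inter
      (isClosed_iInter fun x => isClosed_iInter fun k => isClosed_iInter fun _ =>
        isClosed_eq (continuous_apply x) continuous_const)).inter
      (isClosed_iInter fun x => isClosed_iInter fun k => isClosed_iInter fun _ =>
        isClosed_eq (continuous_apply x) continuous_const)).inter
      (isClosed_iInter fun u => isClosed_iInter fun v => isClosed_iInter fun _ =>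
        isClosed_le continuous_const ?_)
    unfold vol
    fun_prop
  · exact (LipschitzWith.uniformEquicontinuous _ n fun C =>
      LipschitzWith.of_dist_le_mul (lip C.2)).equicontinuous

lemma usc : UpperSemicontinuous fun C : C(Fin n → I, ℝ) => volume {x | C x = W x} := by
  intro C t ht
  have hcl : ∀ m : ℕ, MeasurableSet {x | dist (C x) (W x) ≤ 1 / ((m : ℝ) + 1)} := fun m =>
    (isClosed_le (C.continuous.dist contW) continuous_const).measurableSet
  have h1 := tendsto_measure_iInter_atTop (μ := volume) (fun m => (hcl m).nullMeasurableSet)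
    (fun a b hab x hx => by
      rw [mem_ofPred_eq] at hx ⊢
      exact le_trans hx (Nat.one_div_le_one_div hab)) ⟨0, measure_ne_top _ _⟩
  have h2 : ⋂ m : ℕ, {x | dist (C x) (W x) ≤ 1 / ((m : ℝ) + 1)} = {x | C x = W x} := by
    ext x
    simp only [mem_iInter, mem_ofPred_eq]
    refine ⟨fun h => dist_le_zero.1 (ge_of_tendsto' tendsto_one_div_add_atTop_nhds_zero_nat h),
      fun h m => ?_⟩
    rw [h, dist_self]
    positivity
  rw [h2] at h1
  obtain ⟨m, hm⟩ := (h1.eventually (gt_mem_nhds ht)).exists
  filter_upwards [Metric.closedBall_mem_nhds C (Nat.one_div_pos_of_nat (α := ℝ) (n := m))] with D hD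
  refine lt_of_le_of_lt (measure_mono fun x hx => ?_) hm
  have hx' : D x = W x := hx
  rw [mem_ofPred_eq, ← hx', dist_comm]
  exact (ContinuousMap.dist_apply_le_dist x).trans hD

end

theorem result (n : ℕ) (_hn : 3 ≤ n) :
    ∃ C : (Fin n → I) → ℝ, IsCopula C ∧ volume {x | C x = W x} = s n := by
  obtain ⟨C, hC, hmax⟩ := (usc.upperSemicontinuousOn _).exists_isMaxOn
    ⟨⟨_, cont (prod_copula (n := n))⟩, prod_copula⟩ compact
  refine ⟨C, hC, le_antisymm ?_ ?_⟩
  · exact le_iSup_of_le {x | C x = W x} (le_iSup₂_of_le
      (isClosed_eq C.continuous contW).measurableSet ⟨C, hC, fun _ h => h⟩ le_rfl)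
  · refine iSup_le fun A => iSup₂_le fun _ ⟨D, hD, h⟩ => ?_
    exact (measure_mono h).trans (hmax (a := ⟨D, cont hD⟩) hD)

end Pool.Agent.Results.MP_2d7e0f_pr.Attained
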